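import Pool.Agent.Helper16K9.TH.Df

set_option autoImplicit false

/-! Greedy choice of a basis adapted to a linear space of operators. -/

namespace Pool.Agent.Helper44K9.TH

open Pool.Agent.Helper16K9.TH Module

section
variable {F : Type} [Field F] {V : Type} [AddCommGroup V] [Module F V]

/-- the rank does not fall on a line, with finitely many exceptions -/
lemma semi {M N : Type} [AddCommGroup M] [Module F M] [FiniteDimensional F M] [AddCommGroup N] [Module F N]
    [FiniteDimensional F N] (f g : M →ₗ[F] N) :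
    {s : F | finrank F (LinearMap.range (f + s • g)) < finrank F (LinearMap.range f)}.Finite := by
  obtain ⟨V', hV'⟩ := (LinearMap.ker f).exists_isCompl
  set fV : V' →ₗ[F] N := f ∘ₗ V'.subtype with hfV
  have hker : LinearMap.ker fV = ⊥ := by
    rw [LinearMap.ker_eq_bot']
    intro v hv
    have h1 : (v : M) ∈ LinearMap.ker f := hv
    have h2 : (v : M) ∈ LinearMap.ker f ⊓ V' := ⟨h1, v.2⟩
    rw [hV'.inf_eq_bot, Submodule.mem_bot] at h2
    exact Subtype.ext h2
  obtain ⟨π, hπ⟩ := fV.exists_leftInverse_of_injective hker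
  set h : V' →ₗ[F] V' := π ∘ₗ (g ∘ₗ V'.subtype) with hh
  have hrank : finrank F (LinearMap.range f) = finrank F V' := by
    have h1 := LinearMap.finrank_range_add_finrank_ker f
    have h2 := Submodule.finrank_add_eq_of_isCompl hV'
    omega
  refine (Set.Finite.preimage (f := fun s : F => -s⁻¹) ?_ (Module.End.finite_hasEigenvalue (R := F) (M := V') h)).subset ?_
  · intro a _ b _ hab
    simpa using hab
  · intro s hs
    rw [Set.mem_setOf_eq] at hs
    rw [Set.mem_preimage, Set.mem_setOf_eq]
    have hninj : ¬ LinearMap.ker ((f + s • g) ∘ₗ V'.subtype) = ⊥ := by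
      intro hbot
      have h1 := LinearMap.finrank_range_add_finrank_ker ((f + s • g) ∘ₗ V'.subtype)
      rw [hbot, finrank_bot, add_zero] at h1
      have h2 : LinearMap.range ((f + s • g) ∘ₗ V'.subtype) ≤ LinearMap.range (f + s • g) :=
        LinearMap.range_comp_le_range _ _
      have h3 := Submodule.finrank_mono h2
      omega
    obtain ⟨v, hv, hv0⟩ := (Submodule.ne_bot_iff _).1 hninj
    have h4 : (f + s • g) (v : M) = 0 := hv
    have h5 : v + s • h v = 0 := by
      have h6 : π ((f + s • g) (v : M)) = 0 := by rw [h4, map_zero]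
      rw [LinearMap.add_apply, map_add, LinearMap.smul_apply, map_smul] at h6
      have h7 : π (f (v : M)) = v := by
        have := LinearMap.congr_fun hπ v
        exact this
      rw [h7] at h6
      exact h6
    have hs0 : s ≠ 0 := by
      rintro rfl
      rw [zero_smul, add_zero] at h5
      exact hv0 h5
    refine Module.End.hasEigenvalue_of_hasEigenvector (x := v) (Module.End.hasEigenvector_iff.2 ⟨?_, hv0⟩)
    rw [Module.End.mem_eigenspace_iff]
    have h8 : s • h v = - v := by
      rw [← add_eq_zero_iff_eq_neg, add_comm]; exact h5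
    rw [neg_smul, eq_neg_iff_add_eq_zero]
    have h9 : s⁻¹ • (v + s • h v) = 0 := by rw [h5, smul_zero]
    rw [smul_add, smul_smul, inv_mul_cancel₀ hs0, one_smul] at h9
    rw [add_comm]; exact h9

/-- a vector outside finitely many proper subspaces -/
lemma avoid [Infinite F] {ι : Type} (s : Finset ι) (U : ι → Submodule F V) (hU : ∀ i ∈ s, U i ≠ ⊤) :
    ∃ y : V, ∀ i ∈ s, y ∉ U i := by
  classical
  have h1 := Subspace.biUnion_ne_univ_of_top_notMem (k := F) (E := V) (s := s.image U) (by
    intro h
    obtain ⟨i, hi, hiU⟩ := Finset.mem_image.1 h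
    exact hU i hi hiU)
  obtain ⟨y, hy⟩ := (Set.ne_univ_iff_exists_notMem _).1 h1
  refine ⟨y, fun i hi hyi => hy ?_⟩
  rw [Set.mem_iUnion₂]
  exact ⟨U i, Finset.mem_image_of_mem U hi, hyi⟩

lemma map_range (W : Submodule F (Module.End F V)) (x : V) :
    W.map (LinearMap.applyₗ x) = LinearMap.range ((LinearMap.applyₗ x : Module.End F V →ₗ[F] V) ∘ₗ W.subtype) := by
  rw [LinearMap.range_comp, Submodule.range_subtype]

/-- the choice of the next vector -/
lemma choice [Infinite F] [FiniteDimensional F V] {ι : Type} (s : Finset ι) (U : ι → Submodule F V)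
    (hU : ∀ i ∈ s, U i ≠ ⊤) (W : Submodule F (Module.End F V)) :
    ∃ x : V, (∀ i ∈ s, x ∉ U i) ∧
      ∀ y : V, finrank F (W.map (LinearMap.applyₗ y)) ≤ finrank F (W.map (LinearMap.applyₗ x)) := by
  classical
  -- the maximum
  set R : Set ℕ := Set.range fun y : V => finrank F (W.map (LinearMap.applyₗ y)) with hR
  have hbdd : BddAbove R := by
    refine ⟨finrank F V, ?_⟩
    rintro _ ⟨y, rfl⟩
    exact Submodule.finrank_le _
  have hne : R.Nonempty := ⟨_, 0, rfl⟩
  obtain ⟨x0, hx0⟩ := Nat.sSup_mem hne hbdd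
  have hmax : ∀ y : V, finrank F (W.map (LinearMap.applyₗ y)) ≤ finrank F (W.map (LinearMap.applyₗ x0)) := by
    intro y
    have h1 : finrank F (W.map (LinearMap.applyₗ y)) ≤ sSup R := le_csSup hbdd ⟨y, rfl⟩
    simp only at hx0
    rw [hx0]
    exact h1
  obtain ⟨y, hy⟩ := avoid s U hU
  set f : W →ₗ[F] V := (LinearMap.applyₗ x0 : Module.End F V →ₗ[F] V) ∘ₗ W.subtype with hf
  set g : W →ₗ[F] V := (LinearMap.applyₗ y : Module.End F V →ₗ[F] V) ∘ₗ W.subtype with hg
  have hfin1 := semi f g
  have hfin2 : (⋃ i ∈ s, {t : F | x0 + t • y ∈ U i}).Finite := by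
    refine Set.Finite.biUnion s.finite_toSet fun i hi => ?_
    refine Set.Subsingleton.finite ?_
    intro a ha b hb
    by_contra hab
    have h1 : (a - b) • y ∈ U i := by
      have h2 := (U i).sub_mem ha hb
      have h3 : x0 + a • y - (x0 + b • y) = (a - b) • y := by rw [sub_smul]; abel
      rwa [h3] at h2
    have h4 : y ∈ U i := by
      have h5 := (U i).smul_mem (a - b)⁻¹ h1
      rwa [smul_smul, inv_mul_cancel₀ (sub_ne_zero.2 hab), one_smul] at h5
    exact hy i hi h4
  obtain ⟨t, ht⟩ := ((hfin1.union hfin2).infinite_compl).nonempty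
  rw [Set.mem_compl_iff, Set.mem_union, not_or] at ht
  refine ⟨x0 + t • y, fun i hi h => ht.2 ?_, fun z => (hmax z).trans ?_⟩
  · rw [Set.mem_iUnion₂]
    exact ⟨i, hi, h⟩
  · have h1 : ¬ finrank F (LinearMap.range (f + t • g)) < finrank F (LinearMap.range f) := ht.1
    have h2 : (LinearMap.applyₗ (x0 + t • y) : Module.End F V →ₗ[F] V) ∘ₗ W.subtype = f + t • g := by
      rw [hf, hg, map_add, map_smul, LinearMap.add_comp, LinearMap.smul_comp]
    rw [map_range, map_range, h2]
    exact not_lt.1 h1

lemma Fl_congr {e e' : ℕ → V} {j : ℕ} (h : ∀ i < j, e i = e' i) : Fl F e j = Fl F e' j := by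
  unfold Fl
  congr 1
  exact Set.image_congr fun i hi => h i hi

lemma Wj_congr (W : Submodule F (Module.End F V)) {e e' : ℕ → V} {j : ℕ} (h : ∀ i < j, e i = e' i) :
    Wj W e j = Wj W e' j := by
  ext A
  constructor
  · rintro ⟨h1, h2⟩
    exact ⟨h1, fun i hi => by rw [← h i hi]; exact h2 i hi⟩
  · rintro ⟨h1, h2⟩
    exact ⟨h1, fun i hi => by rw [h i hi]; exact h2 i hi⟩

lemma Cj_congr (W : Submodule F (Module.End F V)) {e e' : ℕ → V} {j : ℕ} (h : ∀ i ≤ j, e i = e' i) :
    Cj W e j = Cj W e' j := by
  unfold Cj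
  rw [Wj_congr W (fun i hi => h i hi.le), h j le_rfl]

lemma Fl_finrank_le (e : ℕ → V) (j : ℕ) : finrank F (Fl F e j) ≤ j := by
  classical
  unfold Fl
  have h1 : e '' {i | i < j} = (((Finset.range j).image e : Finset V) : Set V) := by
    ext x; simp
  rw [h1]
  have h2 := finrank_span_finset_le_card (R := F) ((Finset.range j).image e)
  exact h2.trans (Finset.card_image_le.trans (by rw [Finset.card_range]))

/-- the properties of the step `j` -/
def Q (W : Submodule F (Module.End F V)) (e : ℕ → V) (j : ℕ) : Prop :=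
  e j ∉ Fl F e j ∧ (∀ x : V, finrank F ((Wj W e j).map (LinearMap.applyₗ x)) ≤ finrank F (Cj W e j)) ∧
    ∀ k < j, Cj W e k ⊔ Fl F e j ≠ ⊤ → e j ∉ Cj W e k ⊔ Fl F e j

lemma Q_congr (W : Submodule F (Module.End F V)) {e e' : ℕ → V} {j : ℕ} (h : ∀ i ≤ j, e i = e' i) (hQ : Q W e j) :
    Q W e' j := by
  obtain ⟨h1, h2, h3⟩ := hQ
  rw [h j le_rfl, Fl_congr (fun i hi => h i hi.le)] at h1
  rw [Wj_congr W (fun i hi => h i hi.le), Cj_congr W h] at h2
  refine ⟨h1, h2, fun k hk => ?_⟩
  have h4 := h3 k hk
  rw [h j le_rfl, Fl_congr (fun i hi => h i hi.le), Cj_congr W (fun i hi => h i (hi.trans hk.le))] at h4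
  exact h4

lemma exists_seq [Infinite F] [FiniteDimensional F V] (W : Submodule F (Module.End F V)) :
    ∀ m ≤ finrank F V, ∃ e : ℕ → V, ∀ j < m, Q W e j := by
  classical
  intro m
  induction m with
  | zero => exact fun _ => ⟨fun _ => 0, fun j hj => absurd hj (Nat.not_lt_zero _)⟩
  | succ m ih =>
    intro hm
    obtain ⟨e, he⟩ := ih (by omega)
    set U : Option ℕ → Submodule F V := fun o => o.elim (Fl F e m) fun k => Cj W e k ⊔ Fl F e m with hU
    set s : Finset (Option ℕ) := (insert none ((Finset.range m).image some)).filter fun o => U o ≠ ⊤ with hs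
    obtain ⟨x, hx, hmax⟩ := choice s U (fun o ho => (Finset.mem_filter.1 ho).2) (Wj W e m)
    have hFl : Fl F e m ≠ ⊤ := by
      intro h
      have h1 := Fl_finrank_le (F := F) e m
      rw [h, finrank_top] at h1
      omega
    set e' := Function.update e m x with he'
    have hag : ∀ i < m, e i = e' i := fun i hi => by rw [he', Function.update_of_ne hi.ne]
    have hem : e' m = x := by rw [he', Function.update_self]
    refine ⟨e', fun j hj => ?_⟩
    rcases Nat.lt_succ_iff_lt_or_eq.1 hj with hjm | rfl
    · exact Q_congr W (fun i hi => hag i (lt_of_le_of_lt hi hjm)) (he j hjm)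
    · have hFe : Fl F e' j = Fl F e j := (Fl_congr hag).symm
      have hWe : Wj W e' j = Wj W e j := (Wj_congr W hag).symm
      refine ⟨?_, ?_, ?_⟩
      · rw [hem, hFe]
        exact hx none (Finset.mem_filter.2 ⟨Finset.mem_insert_self _ _, hFl⟩)
      · intro y
        unfold Cj
        rw [hem, hWe]
        exact hmax y
      · intro k hk hne
        have hCe : Cj W e' k = Cj W e k := (Cj_congr W (fun i hi => hag i (lt_of_le_of_lt hi hk))).symm
        rw [hCe, hFe] at hne ⊢
        rw [hem]
        exact hx (some k) (Finset.mem_filter.2 ⟨Finset.mem_insert_of_mem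
          (Finset.mem_image_of_mem some (Finset.mem_range.2 hk)), hne⟩)

lemma step_rank [FiniteDimensional F V] (W : Submodule F (Module.End F V)) (e : ℕ → V) (j : ℕ) :
    finrank F (Cj W e j) + finrank F (Wj W e (j + 1)) = finrank F (Wj W e j) := by
  have h1 := LinearMap.finrank_range_add_finrank_ker
    ((LinearMap.applyₗ (e j) : Module.End F V →ₗ[F] V) ∘ₗ (Wj W e j).subtype)
  rw [← map_range] at h1
  have hle : Wj W e (j + 1) ≤ Wj W e j := fun A hA => ⟨hA.1, fun i hi => hA.2 i (by omega)⟩
  have h2 : LinearMap.ker ((LinearMap.applyₗ (e j) : Module.End F V →ₗ[F] V) ∘ₗ (Wj W e j).subtype) =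
      (Wj W e (j + 1)).comap (Wj W e j).subtype := by
    ext A
    constructor
    · intro hA
      have hA' : (A : Module.End F V) (e j) = 0 := hA
      refine ⟨A.2.1, fun i hi => ?_⟩
      rcases Nat.lt_succ_iff_lt_or_eq.1 hi with h | rfl
      · exact A.2.2 i h
      · exact hA'
    · intro hA
      exact hA.2 j (Nat.lt_succ_self j)
  rw [h2, (Submodule.comapSubtypeEquivOfLe hle).finrank_eq] at h1
  exact h1

end

theorem grd : S_GRD := by
  intro F _ _ V _ _ _ W L
  obtain ⟨e, he⟩ := exists_seq W (finrank F V) le_rfl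
  refine ⟨e, fun j hj => (he j hj).1, fun j hj => ?_, ?_, fun k j hk hLj hj hne =>
    (he j hj).2.2 k (by omega) hne⟩
  · have h1 := (he j (by omega)).2.1 (e (j + 1))
    refine le_trans (Submodule.finrank_mono ?_) h1
    unfold Cj
    exact Submodule.map_mono fun A hA => ⟨hA.1, fun i hi => hA.2 i (by omega)⟩
  · -- the sum
    have hsum : ∀ m, ∑ j ∈ Finset.range m, finrank F (Cj W e j) + finrank F (Wj W e m) = finrank F W := by
      intro m
      induction m with
      | zero =>
        have h0 : Wj W e 0 = W := by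
          ext A
          exact ⟨fun h => h.1, fun h => ⟨h, fun i hi => absurd hi (Nat.not_lt_zero i)⟩⟩
        rw [Finset.sum_range_zero, zero_add, h0]
      | succ m ih =>
        rw [Finset.sum_range_succ, add_assoc, step_rank, ih]
    have hge : ∀ m ≤ finrank F V, m ≤ finrank F (Fl F e m) := by
      intro m
      induction m with
      | zero => exact fun _ => Nat.zero_le _
      | succ m ih =>
        intro hm
        have h1 := ih (by omega)
        have hle : Fl F e m ≤ Fl F e (m + 1) := Submodule.span_mono (Set.image_mono fun i hi => Nat.lt_succ_of_lt hi)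
        have hmem : e m ∈ Fl F e (m + 1) := Submodule.subset_span ⟨m, Nat.lt_succ_self m, rfl⟩
        have hlt : Fl F e m < Fl F e (m + 1) := by
          refine lt_of_le_of_ne hle fun h => (he m (by omega)).1 ?_
          rw [h]; exact hmem
        have := Submodule.finrank_lt_finrank_of_lt hlt
        omega
    have htop : Fl F e (finrank F V) = ⊤ :=
      Submodule.eq_top_of_finrank_eq (le_antisymm (Submodule.finrank_le _) (hge _ le_rfl))
    have hbot : Wj W e (finrank F V) = ⊥ := by
      rw [eq_bot_iff]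
      intro A hA
      rw [Submodule.mem_bot]
      have h1 : Fl F e (finrank F V) ≤ LinearMap.ker A := by
        unfold Fl
        rw [Submodule.span_le]
        rintro _ ⟨i, hi, rfl⟩
        exact hA.2 i hi
      rw [htop, top_le_iff, LinearMap.ker_eq_top] at h1
      exact h1
    have h2 := hsum (finrank F V)
    rw [hbot, finrank_bot, add_zero] at h2
    exact h2

end Pool.Agent.Helper44K9.TH
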